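import Pool.Agent.HSP.St

/-!
# HSP, module BSQ: quotients of Baumslag-Solitar groups
-/

set_option autoImplicit false

namespace Pool.Agent.HSP

private lemma BSQ_conj {G : Type} [Group G] (x t : G) (q : ℕ) (h : t * x * t⁻¹ = x ^ q) :
    ∀ j : ℕ, t ^ j * x * (t ^ j)⁻¹ = x ^ (q ^ j) := by
  intro j
  induction j with
  | zero => simp
  | succ j ih =>
    have h1 : t ^ (j + 1) * x * (t ^ (j + 1))⁻¹ = t * (t ^ j * x * (t ^ j)⁻¹) * t⁻¹ := by
      rw [pow_succ']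
      group
    rw [h1, ih]
    have h2 : t * x ^ (q ^ j) * t⁻¹ = (t * x * t⁻¹) ^ (q ^ j) := by
      rw [conj_pow]
    rw [h2, h, ← pow_mul, pow_succ']

/-- Elements of the normalizer of `W` which commute with `S` modulo `W`. -/
private def BSQ_cent {G : Type} [Group G] (W : Subgroup G) (S : Set G) : Subgroup G where
  carrier := {g | (∀ w ∈ W, g * w * g⁻¹ ∈ W ∧ g⁻¹ * w * g ∈ W) ∧ ∀ s ∈ S, g * s * g⁻¹ * s⁻¹ ∈ W}
  one_mem' := by
    refine ⟨fun w hw => ?_, fun s _ => ?_⟩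
    · simp [hw]
    · simp [W.one_mem]
  mul_mem' := by
    rintro a b ⟨ha, ha'⟩ ⟨hb, hb'⟩
    refine ⟨fun w hw => ⟨?_, ?_⟩, fun s hs => ?_⟩
    · have h1 := (ha _ (hb w hw).1).1
      have h2 : a * b * w * (a * b)⁻¹ = a * (b * w * b⁻¹) * a⁻¹ := by group
      rw [h2]
      exact h1
    · have h1 := (hb _ (ha w hw).2).2
      have h2 : (a * b)⁻¹ * w * (a * b) = b⁻¹ * (a⁻¹ * w * a) * b := by group
      rw [h2]
      exact h1
    · have h1 := W.mul_mem (ha _ (hb' s hs)).1 (ha' s hs)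
      have h2 : a * b * s * (a * b)⁻¹ * s⁻¹ = a * (b * s * b⁻¹ * s⁻¹) * a⁻¹ *
          (a * s * a⁻¹ * s⁻¹) := by group
      rw [h2]
      exact h1
  inv_mem' := by
    rintro a ⟨ha, ha'⟩
    refine ⟨fun w hw => ⟨?_, ?_⟩, fun s hs => ?_⟩
    · rw [inv_inv]
      exact (ha w hw).2
    · rw [inv_inv]
      exact (ha w hw).1
    · have h1 := (ha _ (W.inv_mem (ha' s hs))).2
      have h2 : a⁻¹ * s * a⁻¹⁻¹ * s⁻¹ = a⁻¹ * (a * s * a⁻¹ * s⁻¹)⁻¹ * a := by group
      rw [h2]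
      exact h1

private lemma BSQ_comm {G : Type} [Group G] (W : Subgroup G) (S : Set G)
    (h : ∀ a ∈ S, a ∈ BSQ_cent W S) :
    ⁅Subgroup.closure S, Subgroup.closure S⁆ ≤ W := by
  have h1 : Subgroup.closure S ≤ BSQ_cent W S := (Subgroup.closure_le _).2 h
  have h2 : Subgroup.closure S ≤ BSQ_cent W (Subgroup.closure S : Set G) := by
    rw [Subgroup.closure_le]
    intro a ha
    refine ⟨(h a ha).1, ?_⟩
    intro s hs
    have h3 := (h1 hs).2 a ha
    have h4 : a * s * a⁻¹ * s⁻¹ = (s * a * s⁻¹ * a⁻¹)⁻¹ := by group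
    rw [h4]
    exact W.inv_mem h3
  rw [Subgroup.commutator_le]
  intro a ha b hb
  exact (h2 ha).2 b hb

private lemma BSQ_conjz {G : Type} [Group G] (x t : G) (q : ℕ) (h : t * x * t⁻¹ = x ^ q)
    (j : ℕ) (i : ℤ) : t ^ j * x ^ i * (t ^ j)⁻¹ = x ^ ((q ^ j : ℕ) * i : ℤ) := by
  rw [← conj_zpow, BSQ_conj x t q h j, ← zpow_natCast, ← zpow_mul]

/-- `{g | t ^ j g t ^ (-j) ∈ ⟨x ^ r⟩ for some j}`. -/
private def BSQ_W {G : Type} [Group G] (x t : G) (q : ℕ) (h : t * x * t⁻¹ = x ^ q) (r : ℤ) :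
    Subgroup G where
  carrier := {g | ∃ (j : ℕ) (i : ℤ), t ^ j * g * (t ^ j)⁻¹ = x ^ (r * i)}
  one_mem' := ⟨0, 0, by simp⟩
  mul_mem' := by
    rintro a b ⟨j, i, ha⟩ ⟨j', i', hb⟩
    refine ⟨j' + j, (q ^ j' : ℕ) * i + (q ^ j : ℕ) * i', ?_⟩
    have h1 := BSQ_conjz x t q h j' (r * i)
    have h2 := BSQ_conjz x t q h j (r * i')
    rw [← ha] at h1
    rw [← hb] at h2
    have h3 : t ^ (j' + j) * (a * b) * (t ^ (j' + j))⁻¹ =
        (t ^ j' * (t ^ j * a * (t ^ j)⁻¹) * (t ^ j')⁻¹) *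
        (t ^ j * (t ^ j' * b * (t ^ j')⁻¹) * (t ^ j)⁻¹) := by
      have e1 : t ^ (j' + j) = t ^ j' * t ^ j := pow_add _ _ _
      have e2 : t ^ j * t ^ j' = t ^ j' * t ^ j := by rw [← pow_add, ← pow_add, add_comm]
      have e3 : t ^ j * (t ^ j' * b * (t ^ j')⁻¹) * (t ^ j)⁻¹ =
          (t ^ j * t ^ j') * b * (t ^ j * t ^ j')⁻¹ := by group
      rw [e3, e1, e2]
      group
    rw [h3, h1, h2, ← zpow_add]
    congr 1
    ring
  inv_mem' := by
    rintro a ⟨j, i, ha⟩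
    refine ⟨j, -i, ?_⟩
    have h1 : t ^ j * a⁻¹ * (t ^ j)⁻¹ = (t ^ j * a * (t ^ j)⁻¹)⁻¹ := by group
    rw [h1, ha, ← zpow_neg]
    congr 1
    ring

theorem thm_BSQ : St_BSQ := by
  intro G _ x t q hq h hord hx
  have hfin : IsOfFinOrder x → x ^ q = x := by
    intro hf
    have h1 : orderOf x ∣ q - 1 := hord (orderOf_pos_iff.2 hf).ne'
    have h2 : x ^ (q - 1) = 1 := orderOf_dvd_iff_pow_eq_one.1 h1
    obtain ⟨r, hr⟩ : ∃ r, q = r + 1 := ⟨q - 1, by omega⟩
    rw [hr] at h2 ⊢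
    rw [Nat.add_sub_cancel] at h2
    rw [pow_succ, h2, one_mul]
  by_cases hf : IsOfFinOrder x
  · have h1 := hfin hf
    rw [h1] at h
    have h2 : t * x = x * t := by
      calc t * x = t * x * t⁻¹ * t := by group
        _ = x * t := by rw [h]
    have h3 : ⁅Subgroup.closure ({x, t} : Set G), Subgroup.closure ({x, t} : Set G)⁆ ≤ ⊥ := by
      apply BSQ_comm
      intro a ha
      refine ⟨fun w hw => ?_, fun s hs => ?_⟩
      · rw [Subgroup.mem_bot] at hw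
        rw [hw]
        simp
      · rw [Subgroup.mem_bot]
        simp only [Set.mem_insert_iff, Set.mem_singleton_iff] at ha hs
        rcases ha with rfl | rfl <;> rcases hs with rfl | rfl
        · group
        · rw [← h2]
          group
        · rw [h2]
          group
        · group
    exact (Subgroup.mem_bot).1 (h3 hx)
  · exfalso
    have hq1 : (1 : ℤ) < (q : ℤ) - 1 := by
      have : (3 : ℤ) ≤ (q : ℤ) := by exact_mod_cast hq
      linarith
    have h3 : ⁅Subgroup.closure ({x, t} : Set G), Subgroup.closure ({x, t} : Set G)⁆ ≤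
        BSQ_W x t q h ((q : ℤ) - 1) := by
      apply BSQ_comm
      have hxW : ∀ w ∈ BSQ_W x t q h ((q : ℤ) - 1),
          x * w * x⁻¹ ∈ BSQ_W x t q h ((q : ℤ) - 1) ∧
          x⁻¹ * w * x ∈ BSQ_W x t q h ((q : ℤ) - 1) := by
        rintro w ⟨j, i, hw⟩
        have e1 := BSQ_conj x t q h j
        refine ⟨⟨j, i, ?_⟩, ⟨j, i, ?_⟩⟩
        · have e2 : t ^ j * (x * w * x⁻¹) * (t ^ j)⁻¹ = (t ^ j * x * (t ^ j)⁻¹) *
              (t ^ j * w * (t ^ j)⁻¹) * (t ^ j * x * (t ^ j)⁻¹)⁻¹ := by group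
          rw [e2, e1, hw, ← zpow_natCast, ← zpow_neg, ← zpow_add, ← zpow_add]
          congr 1
          ring
        · have e2 : t ^ j * (x⁻¹ * w * x) * (t ^ j)⁻¹ = (t ^ j * x * (t ^ j)⁻¹)⁻¹ *
              (t ^ j * w * (t ^ j)⁻¹) * (t ^ j * x * (t ^ j)⁻¹) := by group
          rw [e2, e1, hw, ← zpow_natCast, ← zpow_neg, ← zpow_add, ← zpow_add]
          congr 1
          ring
      have htW : ∀ w ∈ BSQ_W x t q h ((q : ℤ) - 1),
          t * w * t⁻¹ ∈ BSQ_W x t q h ((q : ℤ) - 1) ∧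
          t⁻¹ * w * t ∈ BSQ_W x t q h ((q : ℤ) - 1) := by
        rintro w ⟨j, i, hw⟩
        refine ⟨⟨j, (q : ℤ) * i, ?_⟩, ⟨j + 1, i, ?_⟩⟩
        · have e2 : t ^ j * (t * w * t⁻¹) * (t ^ j)⁻¹ =
              t ^ 1 * (t ^ j * w * (t ^ j)⁻¹) * (t ^ 1)⁻¹ := by
            rw [pow_one]
            have e3 : t ^ j * t = t * t ^ j := by rw [← pow_succ, ← pow_succ']
            have e4 : t ^ j * (t * w * t⁻¹) * (t ^ j)⁻¹ = (t ^ j * t) * w * (t ^ j * t)⁻¹ := by
              group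
            rw [e4, e3]
            group
          rw [e2, hw, BSQ_conjz x t q h 1, pow_one]
          congr 1
          ring
        · have e2 : t ^ (j + 1) * (t⁻¹ * w * t) * (t ^ (j + 1))⁻¹ =
              t ^ j * w * (t ^ j)⁻¹ := by
            rw [pow_succ]
            group
          rw [e2, hw]
      intro a ha
      simp only [Set.mem_insert_iff, Set.mem_singleton_iff] at ha
      have hxt : x * t * x⁻¹ * t⁻¹ ∈ BSQ_W x t q h ((q : ℤ) - 1) := by
        refine ⟨0, -1, ?_⟩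
        have e1 : t ^ 0 * (x * t * x⁻¹ * t⁻¹) * (t ^ 0)⁻¹ = x * (t * x * t⁻¹)⁻¹ := by
          rw [pow_zero]
          group
        rw [e1, h]
        have e2 : x * (x ^ q)⁻¹ = x ^ (1 : ℤ) * x ^ (-(q : ℤ)) := by
          rw [zpow_one, zpow_neg, zpow_natCast]
        rw [e2, ← zpow_add]
        congr 1
        ring
      have htx : t * x * t⁻¹ * x⁻¹ ∈ BSQ_W x t q h ((q : ℤ) - 1) := by
        have e1 : t * x * t⁻¹ * x⁻¹ = (x * t * x⁻¹ * t⁻¹)⁻¹ := by group
        rw [e1]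
        exact Subgroup.inv_mem _ hxt
      rcases ha with rfl | rfl
      · refine ⟨hxW, fun s hs => ?_⟩
        simp only [Set.mem_insert_iff, Set.mem_singleton_iff] at hs
        rcases hs with rfl | rfl
        · have e : s * s * s⁻¹ * s⁻¹ = 1 := by group
          rw [e]
          exact Subgroup.one_mem _
        · exact hxt
      · refine ⟨htW, fun s hs => ?_⟩
        simp only [Set.mem_insert_iff, Set.mem_singleton_iff] at hs
        rcases hs with rfl | rfl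
        · exact htx
        · have e : s * s * s⁻¹ * s⁻¹ = 1 := by group
          rw [e]
          exact Subgroup.one_mem _
    obtain ⟨j, i, hw⟩ := h3 hx
    rw [BSQ_conj x t q h j, ← zpow_natCast] at hw
    have hinj : Function.Injective (fun n : ℤ => x ^ n) :=
      injective_zpow_iff_not_isOfFinOrder.2 hf
    have h4 : ((q ^ j : ℕ) : ℤ) = ((q : ℤ) - 1) * i := hinj hw
    have h5 : ((q : ℤ) - 1) ∣ ((q : ℤ) ^ j - 1 ^ j) := sub_dvd_pow_sub_pow _ _ j
    rw [one_pow] at h5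
    have h6 : ((q : ℤ) - 1) ∣ (q : ℤ) ^ j := ⟨i, by rw [← h4]; push_cast; ring⟩
    have h7 : ((q : ℤ) - 1) ∣ 1 := by
      have := dvd_sub h6 h5
      have e : (q : ℤ) ^ j - ((q : ℤ) ^ j - 1) = 1 := by ring
      rwa [e] at this
    have h8 := Int.le_of_dvd one_pos h7
    linarith

end Pool.Agent.HSP
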