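import Pool.Agent.HSP.DEC

/-!
# HSP, module CON: if the support of the trace is mapped to `1` then the image has its trace at `1`
-/

set_option autoImplicit false

namespace Pool.Agent.HSP

open Matrix Pool.Agent.CPD

theorem thm_CON : St_CON := by
  classical
  intro π ρ W _ _ _ _ φ deg k k' s t hs ht hk h
  have h1 : ∀ x, t (k' x x) = chi {g : π | φ g = 1} (k x x) := by
    intro x
    rw [ht, hk]
    generalize k x x = a
    induction a using MonoidAlgebra.induction_linear with
    | zero => rw [MonoidAlgebra.mapDomain_zero, map_zero, MonoidAlgebra.coeff_zero, Finsupp.zero_apply]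
    | add a b ha hb =>
      rw [MonoidAlgebra.mapDomain_add, MonoidAlgebra.coeff_add, Finsupp.add_apply, ha, hb, map_add]
    | single g n =>
      rw [MonoidAlgebra.mapDomain_single, MonoidAlgebra.coeff_single, Finsupp.single_apply,
        chi_single]
      rfl
  have h2 : ∀ x, s (k x x) = chi (Set.univ : Set π) (k x x) := by
    intro x
    generalize k x x = a
    induction a using MonoidAlgebra.induction_linear with
    | zero => rw [map_zero, map_zero]
    | add a b ha hb => rw [map_add, map_add, ha, hb]
    | single g n => rw [hs, chi_single, if_pos (Set.mem_univ g)]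
  have e1 : str t deg k' = str (chi {g : π | φ g = 1}) deg k := by
    unfold str
    exact Finset.sum_congr rfl fun x _ => by rw [h1 x]
  have e2 : str s deg k = str (chi (Set.univ : Set π)) deg k := by
    unfold str
    exact Finset.sum_congr rfl fun x _ => by rw [h2 x]
  rw [e1, e2, str_dec deg k {g : π | φ g = 1}, str_dec deg k Set.univ]
  · refine Finset.sum_subset ?_ ?_
    · intro C hC
      rw [Finset.mem_filter] at hC ⊢
      obtain ⟨hC1, g, _, hg⟩ := hC
      exact ⟨hC1, g, Set.mem_univ g, hg⟩
    · intro C hC hC'
      by_contra hne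
      apply hC'
      rw [Finset.mem_filter] at hC ⊢
      obtain ⟨hC1, g, _, hg⟩ := hC
      refine ⟨hC1, g, ?_, hg⟩
      refine h g ?_
      rw [cj_eq, hg]
      exact hne
  · intro g h' _ _
    exact Set.mem_univ h'
  · intro g h' hgh hg
    obtain ⟨c, hc⟩ := isConj_iff.1 hgh
    have hg' : φ g = 1 := hg
    show φ h' = 1
    rw [← hc, map_mul, map_mul, hg', mul_one, ← map_mul, mul_inv_cancel, map_one]

end Pool.Agent.HSP
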