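import Pool.Agent.HSP.St

/-!
# HSP: decomposition of the trace by conjugacy classes
-/

set_option autoImplicit false

namespace Pool.Agent.HSP

open Matrix Pool.Agent.CPD

/-- The elements of the class `C`. -/
def cls {π : Type} [Group π] (C : ConjClasses π) : Set π := {g | ConjClasses.mk g = C}

theorem cj_eq {π : Type} [Group π] (y : π) : cj y = cls (ConjClasses.mk y) := by
  ext g
  exact ⟨fun h => (ConjClasses.mk_eq_mk_iff_isConj.2 h).symm,
    fun h => ConjClasses.mk_eq_mk_iff_isConj.1 (Eq.symm h)⟩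

section

variable {π W : Type} [Group π] [Fintype W] [DecidableEq W]

open scoped Classical in
/-- The classes of the group elements which occur on the diagonal. -/
noncomputable def supC (k : Matrix W W (ZG π)) : Finset (ConjClasses π) :=
  Finset.univ.biUnion fun x : W => (k x x).coeff.support.image ConjClasses.mk

open scoped Classical in
theorem chi_dec (X : Set π) (hX : ∀ g h, IsConj g h → g ∈ X → h ∈ X)
    (P : Finset (ConjClasses π)) (a : ZG π) (ha : ∀ g ∈ a.coeff.support, ConjClasses.mk g ∈ P) :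
    chi X a = ∑ C ∈ P.filter (fun C => ∃ g ∈ X, ConjClasses.mk g = C), chi (cls C) a := by
  have h1 : ∀ S : Set π, chi S a = ∑ g ∈ a.coeff.support, if g ∈ S then a.coeff g else 0 := by
    intro S
    rfl
  rw [h1 X, Finset.sum_congr rfl fun C _ => h1 (cls C), Finset.sum_comm]
  refine Finset.sum_congr rfl fun g hg => ?_
  have h2 : ∀ C ∈ P.filter (fun C => ∃ g ∈ X, ConjClasses.mk g = C),
      (if g ∈ cls C then a.coeff g else 0) = if ConjClasses.mk g = C then a.coeff g else 0 := by
    intro C _
    by_cases hC : ConjClasses.mk g = C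
    · rw [if_pos hC, if_pos (show g ∈ cls C from hC)]
    · rw [if_neg hC, if_neg (show g ∉ cls C from hC)]
  rw [Finset.sum_congr rfl h2, Finset.sum_ite_eq]
  have h3 : ConjClasses.mk g ∈ P.filter (fun C => ∃ g ∈ X, ConjClasses.mk g = C) ↔ g ∈ X := by
    rw [Finset.mem_filter]
    constructor
    · rintro ⟨_, g', hg', he⟩
      exact hX g' g (ConjClasses.mk_eq_mk_iff_isConj.1 he) hg'
    · intro h
      exact ⟨ha g hg, g, h, rfl⟩
  by_cases h4 : g ∈ X
  · rw [if_pos h4, if_pos (h3.2 h4)]
  · rw [if_neg h4, if_neg fun h => h4 (h3.1 h)]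

omit [DecidableEq W] in
open scoped Classical in
theorem str_dec (deg : W → ℕ) (k : Matrix W W (ZG π)) (X : Set π)
    (hX : ∀ g h, IsConj g h → g ∈ X → h ∈ X) :
    str (chi X) deg k = ∑ C ∈ (supC k).filter (fun C => ∃ g ∈ X, ConjClasses.mk g = C),
      str (chi (cls C)) deg k := by
  unfold str
  rw [Finset.sum_comm]
  refine Finset.sum_congr rfl fun x _ => ?_
  rw [← Finset.smul_sum, chi_dec X hX (supC k) (k x x)]
  intro g hg
  exact Finset.mem_biUnion.2 ⟨x, Finset.mem_univ _, Finset.mem_image_of_mem _ hg⟩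

end

end Pool.Agent.HSP
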