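import Pool.Agent.HSP.St
import Pool.Agent.CPD.A1
import Pool.Agent.CPD.A2

/-!
# HSP, module HSK: powers of a homotopy idempotent have the same traces
-/

set_option autoImplicit false

namespace Pool.Agent.HSP

open Matrix Pool.Agent.CPD

theorem HSK_Zr_mul {Λ W : Type} [Ring Λ] [Fintype W] (deg : W → ℕ) {A B : Matrix W W Λ}
    (hA : Zr deg A) (hB : Zr deg B) : Zr deg (A * B) := by
  intro x y hxy
  rw [Matrix.mul_apply] at hxy
  obtain ⟨z, _, hz⟩ := Finset.exists_ne_zero_of_sum_ne_zero hxy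
  exact (hA x z (left_ne_zero_of_mul hz)).trans (hB z y (right_ne_zero_of_mul hz))

theorem HSK_Zr_one {Λ W : Type} [Ring Λ] [DecidableEq W] (deg : W → ℕ) :
    Zr deg (1 : Matrix W W Λ) := by
  intro x y hxy
  by_contra h
  apply hxy
  rw [Matrix.one_apply_ne]
  intro h1
  exact h (by rw [h1])

theorem HSK_Zr_pow {Λ W : Type} [Ring Λ] [Fintype W] [DecidableEq W] (deg : W → ℕ)
    {A : Matrix W W Λ} (hA : Zr deg A) (n : ℕ) : Zr deg (A ^ n) := by
  induction n with
  | zero =>
    rw [pow_zero]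
    exact HSK_Zr_one deg
  | succ n ih =>
    rw [pow_succ]
    exact HSK_Zr_mul deg ih hA

theorem thm_HSK : St_HSK := by
  intro Λ A W _ _ _ _ t deg d k htr hdn hk hdk hid n
  obtain ⟨_, _, _, h4⟩ := A2 Λ W deg d
  induction n with
  | zero => rw [zero_add, pow_one]
  | succ n ih =>
    have h1 : NullH deg d ((k * k - k) * k ^ n) :=
      (h4 _ (k ^ n) (HSK_Zr_pow deg hk n) (by
        have : Commute d k := hdk
        exact (this.pow_right n).eq) hid).1
    have h2 := A1 Λ A W t deg d _ htr hdn h1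
    have e : (k * k - k) * k ^ n = k ^ (n + 1 + 1) - k ^ (n + 1) := by
      rw [sub_mul, pow_succ' k (n + 1), pow_succ' k n, Matrix.mul_assoc]
    rw [e] at h2
    have h3 : str t deg (k ^ (n + 1 + 1) - k ^ (n + 1)) =
        str t deg (k ^ (n + 1 + 1)) - str t deg (k ^ (n + 1)) := by
      unfold str
      rw [← Finset.sum_sub_distrib]
      refine Finset.sum_congr rfl fun x _ => ?_
      rw [Matrix.sub_apply, map_sub, smul_sub]
    rw [h3, sub_eq_zero] at h2
    rw [h2, ih]

end Pool.Agent.HSP
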