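import Pool.Agent.HSP.TRC
import Pool.Agent.HSP.HSK

/-!
# HSP, module FROB: the trace of the `p`-th power

For a trace `T` with values in `ZMod p`: `T ((a + b) ^ p) = T (a ^ p) + T (b ^ p)` (derivative of `(a + b X) ^ p`).
-/

set_option autoImplicit false

namespace Pool.Agent.HSP

open Matrix Pool.Agent.CPD

section Frob

private lemma FROB_deriv {B A : Type} [Ring B] [AddCommGroup A] (U : B →+ A)
    (hU : ∀ a b, U (a * b) = U (b * a)) (δ : B → B)
    (hδ : ∀ a b, δ (a * b) = δ a * b + a * δ b) (P : B) (m : ℕ) :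
    ∀ R : B, Commute P R → U (δ (P ^ (m + 1)) * R) = (m + 1) • U (δ P * (P ^ m * R)) := by
  induction m with
  | zero =>
    intro R _
    rw [zero_add, pow_one, pow_zero, one_mul, one_smul]
  | succ m ih =>
    intro R hR
    rw [pow_succ P (m + 1), hδ, add_mul, map_add, mul_assoc (δ (P ^ (m + 1))) P R,
      ih (P * R) ((Commute.refl P).mul_right hR)]
    have e1 : P ^ m * (P * R) = P ^ (m + 1) * R := by rw [pow_succ, mul_assoc]
    have e2 : U (P ^ (m + 1) * δ P * R) = U (δ P * (P ^ (m + 1) * R)) := by
      rw [mul_assoc, hU, mul_assoc, (hR.pow_left (m + 1)).eq]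
    rw [e1, e2, ← succ_nsmul]

variable {S : Type} [Ring S] {p : ℕ} (T : S →+ ZMod p)

private lemma FROB_coeff_comm (hT : ∀ a b, T (a * b) = T (b * a)) (P Q : Polynomial S) (n : ℕ) :
    T ((P * Q).coeff n) = T ((Q * P).coeff n) := by
  rw [Polynomial.coeff_mul, Polynomial.coeff_mul, map_sum, map_sum]
  refine Finset.sum_equiv (Equiv.prodComm ℕ ℕ) ?_ ?_
  · intro i
    rw [Finset.HasAntidiagonal.mem_antidiagonal, Finset.HasAntidiagonal.mem_antidiagonal, Equiv.prodComm_apply, Prod.fst_swap,
      Prod.snd_swap, add_comm]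
  · intro i _
    exact hT _ _

private lemma FROB_add (hp : p.Prime) (hT : ∀ a b, T (a * b) = T (b * a)) (a b : S) :
    T ((a + b) ^ p) = T (a ^ p) + T (b ^ p) := by
  have : Fact p.Prime := ⟨hp⟩
  set P : Polynomial S := Polynomial.C a + Polynomial.C b * Polynomial.X with hP
  have hmid : ∀ n, 0 < n → n < p → T ((P ^ p).coeff n) = 0 := by
    intro n hn hnp
    obtain ⟨m, rfl⟩ : ∃ m, n = m + 1 := ⟨n - 1, by omega⟩
    obtain ⟨r, hr⟩ : ∃ r, p = r + 1 := ⟨p - 1, by have := hp.pos; omega⟩
    let U : Polynomial S →+ ZMod p := T.comp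
      ((Polynomial.lcoeff S m).toAddMonoidHom)
    have hU : ∀ P Q, U (P * Q) = U (Q * P) := fun P Q => FROB_coeff_comm T hT P Q m
    have h1 := FROB_deriv U hU (fun Q => Polynomial.derivative Q)
      (fun P Q => Polynomial.derivative_mul) P r 1 (Commute.one_right P)
    rw [mul_one, mul_one, ← hr] at h1
    have h2 : p • U (Polynomial.derivative P * P ^ r) = 0 := by
      rw [nsmul_eq_mul, CharP.cast_eq_zero (ZMod p) p, zero_mul]
    rw [h2] at h1
    have h3 : T ((P ^ p).coeff (m + 1) * ((m : S) + 1)) = 0 := by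
      rw [← Polynomial.coeff_derivative]
      exact h1
    have h4 : (P ^ p).coeff (m + 1) * ((m : S) + 1) = (m + 1) • (P ^ p).coeff (m + 1) := by
      rw [nsmul_eq_mul, Nat.cast_add, Nat.cast_one]
      have h5 : Commute ((m : S) + 1) ((P ^ p).coeff (m + 1)) :=
        (Nat.cast_commute m _).add_left (Commute.one_left _)
      exact h5.eq.symm
    rw [h4, map_nsmul, nsmul_eq_mul] at h3
    rcases mul_eq_zero.1 h3 with h6 | h6
    · exfalso
      rw [ZMod.natCast_eq_zero_iff] at h6
      exact absurd (Nat.le_of_dvd (by omega) h6) (by omega)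
    · exact h6
  have hdeg : P.natDegree ≤ 1 := by
    rw [hP]
    refine (Polynomial.natDegree_add_le _ _).trans (max_le ?_ ?_)
    · rw [Polynomial.natDegree_C]
      exact zero_le_one
    · exact (Polynomial.natDegree_C_mul_le b Polynomial.X).trans Polynomial.natDegree_X_le
  let ψ : Polynomial S →+* S :=
    Polynomial.eval₂RingHom' (RingHom.id S) 1 (fun a => Commute.one_right _)
  have hψ : ∀ Q, ψ Q = Polynomial.eval₂ (RingHom.id S) 1 Q := fun Q => rfl
  have h1 : ψ P = a + b := by
    rw [hψ, hP, Polynomial.eval₂_add, Polynomial.eval₂_C, Polynomial.eval₂_mul_X,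
      Polynomial.eval₂_C, mul_one]
    rfl
  have h2 : (a + b) ^ p = ∑ i ∈ Finset.range (p + 1), (P ^ p).coeff i := by
    rw [← h1, ← map_pow, hψ, Polynomial.eval₂_eq_sum_range' (RingHom.id S) (n := p + 1)]
    · refine Finset.sum_congr rfl fun i _ => ?_
      rw [one_pow, mul_one, RingHom.id_apply]
    · have := Polynomial.natDegree_pow_le_of_le p hdeg
      omega
  have h3 : (P ^ p).coeff 0 = a ^ p := by
    have : ∀ n : ℕ, (P ^ n).coeff 0 = a ^ n := by
      intro n
      induction n with
      | zero => rw [pow_zero, pow_zero, Polynomial.coeff_one_zero]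
      | succ n ih =>
        rw [pow_succ, Polynomial.mul_coeff_zero, ih, pow_succ]
        congr 1
        rw [hP, Polynomial.coeff_add, Polynomial.coeff_C_zero, Polynomial.coeff_C_mul,
          Polynomial.coeff_X_zero, mul_zero, add_zero]
    exact this p
  have h4 : (P ^ p).coeff p = b ^ p := by
    have := Polynomial.coeff_pow_of_natDegree_le (m := p) hdeg
    rw [mul_one] at this
    rw [this]
    congr 1
    rw [hP, Polynomial.coeff_add, Polynomial.coeff_C_mul, Polynomial.coeff_X_one, mul_one,
      Polynomial.coeff_C_of_ne_zero one_ne_zero, zero_add]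
  rw [h2, map_sum, Finset.sum_range_succ, Finset.sum_eq_single 0, h3, h4]
  · intro i hi hi0
    exact hmid i (Nat.pos_of_ne_zero hi0) (Finset.mem_range.1 hi)
  · intro h
    exact absurd (Finset.mem_range.2 hp.pos) h

end Frob

/-- The subring of the matrices which preserve the degree. -/
private def FROB_S {Λ W : Type} [Ring Λ] [Fintype W] [DecidableEq W] (deg : W → ℕ) :
    Subring (Matrix W W Λ) where
  carrier := {A | Zr deg A}
  one_mem' := HSK_Zr_one deg
  mul_mem' := fun ha hb => HSK_Zr_mul deg ha hb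
  zero_mem' := fun x y h => absurd rfl h
  add_mem' := by
    intro a b ha hb x y hxy
    by_contra h
    apply hxy
    have h1 : a x y = 0 := by
      by_contra h2
      exact h (ha x y h2)
    have h2 : b x y = 0 := by
      by_contra h2
      exact h (hb x y h2)
    rw [Matrix.add_apply, h1, h2, add_zero]
  neg_mem' := by
    intro a ha x y hxy
    apply ha x y
    intro h
    apply hxy
    rw [Matrix.neg_apply, h, neg_zero]

private lemma FROB_str_comm {Λ A W : Type} [Ring Λ] [AddCommGroup A] [Fintype W] [DecidableEq W]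
    (t : Λ →+ A) (ht : ∀ a b, t (a * b) = t (b * a)) (deg : W → ℕ) (M N : Matrix W W Λ)
    (hM : Zr deg M) : str t deg (M * N) = str t deg (N * M) := by
  unfold str
  have e1 : ∀ x, ((-1 : ℤ) ^ deg x) • t ((M * N) x x) =
      ∑ z, ((-1 : ℤ) ^ deg x) • t (M x z * N z x) := by
    intro x
    rw [Matrix.mul_apply, map_sum, Finset.smul_sum]
  have e2 : ∀ x, ((-1 : ℤ) ^ deg x) • t ((N * M) x x) =
      ∑ z, ((-1 : ℤ) ^ deg x) • t (N x z * M z x) := by
    intro x
    rw [Matrix.mul_apply, map_sum, Finset.smul_sum]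
  rw [Finset.sum_congr rfl fun x _ => e1 x, Finset.sum_congr rfl fun x _ => e2 x, Finset.sum_comm]
  refine Finset.sum_congr rfl fun z _ => Finset.sum_congr rfl fun x _ => ?_
  by_cases h : M x z = 0
  · rw [h, zero_mul, mul_zero, map_zero, smul_zero, smul_zero]
  · rw [hM x z h, ht]

private noncomputable def FROB_T {Λ W : Type} [Ring Λ] [Fintype W] (p : ℕ) (t : Λ →+ ℤ)
    (deg : W → ℕ) : Matrix W W Λ →+ ZMod p where
  toFun A := ((str t deg A : ℤ) : ZMod p)
  map_zero' := by
    unfold str
    simp
  map_add' A B := by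
    unfold str
    rw [← Int.cast_add, ← Finset.sum_add_distrib]
    congr 1
    refine Finset.sum_congr rfl fun x _ => ?_
    rw [Matrix.add_apply, map_add, smul_add]

private lemma FROB_pow_single {Λ W : Type} [Ring Λ] [Fintype W] [DecidableEq W] (x : W) (c : Λ)
    (n : ℕ) : (Matrix.single x x c) ^ (n + 1) = Matrix.single x x (c ^ (n + 1)) := by
  induction n with
  | zero => rw [zero_add, pow_one, pow_one]
  | succ n ih => rw [pow_succ, ih, Matrix.single_mul_single_same, ← pow_succ]

private lemma FROB_str_single {Λ A W : Type} [Ring Λ] [AddCommGroup A] [Fintype W] [DecidableEq W]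
    (t : Λ →+ A) (deg : W → ℕ) (x : W) (c : Λ) :
    str t deg (Matrix.single x x c) = ((-1 : ℤ) ^ deg x) • t c := by
  unfold str
  rw [Finset.sum_eq_single x]
  · rw [Matrix.single_apply_same]
  · intro z _ hz
    rw [Matrix.single_apply_of_ne _ _ _ _ _ (fun h => hz h.1.symm), map_zero, smul_zero]
  · intro h
    exact absurd (Finset.mem_univ x) h

private lemma FROB_str_off {Λ A W : Type} [Ring Λ] [AddCommGroup A] [Fintype W] [DecidableEq W]
    (t : Λ →+ A) (deg : W → ℕ) (x z : W) (hxz : x ≠ z) (c : Λ) :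
    str t deg (Matrix.single x z c) = 0 := by
  unfold str
  refine Finset.sum_eq_zero fun w _ => ?_
  rw [Matrix.single_apply_of_ne _ _ _ _ _ (fun h => hxz (h.1.trans h.2.symm)), map_zero, smul_zero]

theorem thm_FROB : St_FROB := by
  classical
  intro π W _ _ _ deg A p y hp hA
  have : Fact p.Prime := ⟨hp⟩
  set T := FROB_T p (chi (cj y)) deg with hTd
  set T' := FROB_T p (chi (cjp p y)) deg with hTd'
  have hT : ∀ M : Matrix W W (ZG π), T M = ((str (chi (cj y)) deg M : ℤ) : ZMod p) := fun _ => rfl
  have hT' : ∀ M : Matrix W W (ZG π), T' M = ((str (chi (cjp p y)) deg M : ℤ) : ZMod p) :=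
    fun _ => rfl
  -- the property is additive
  let K : AddSubmonoid (Matrix W W (ZG π)) :=
    { carrier := {M | Zr deg M ∧ T (M ^ p) = T' M}
      zero_mem' := ⟨fun x y h => absurd rfl h, by
        rw [zero_pow hp.ne_zero, map_zero, map_zero]⟩
      add_mem' := by
        rintro a b ⟨ha, ha'⟩ ⟨hb, hb'⟩
        refine ⟨(FROB_S deg).add_mem ha hb, ?_⟩
        let T0 : (FROB_S (Λ := ZG π) deg) →+ ZMod p := T.comp (FROB_S deg).subtype.toAddMonoidHom
        have hT0 : ∀ u v, T0 (u * v) = T0 (v * u) := by
          intro u v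
          show T ((u : Matrix W W (ZG π)) * v) = T ((v : Matrix W W (ZG π)) * u)
          rw [hT, hT, FROB_str_comm (chi (cj y)) (thm_TRC π y) deg _ _ u.2]
        have h1 := FROB_add T0 hp hT0 ⟨a, ha⟩ ⟨b, hb⟩
        have h2 : T ((a + b) ^ p) = T (a ^ p) + T (b ^ p) := h1
        rw [h2, ha', hb', map_add] }
  have hK : A ∈ K := by
    rw [Matrix.matrix_eq_sum_single A]
    refine K.sum_mem fun x _ => K.sum_mem fun z _ => ?_
    by_cases h0 : A x z = 0
    · rw [h0, Matrix.single_zero]
      exact K.zero_mem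
    · have hd := hA x z h0
      generalize A x z = c
      have hZ : ∀ c : ZG π, Zr deg (Matrix.single x z c) := by
        intro c u v huv
        by_cases h1 : x = u ∧ z = v
        · rw [← h1.1, ← h1.2]
          exact hd
        · exact absurd (Matrix.single_apply_of_ne _ _ _ _ _ h1) huv
      induction c using MonoidAlgebra.induction_linear with
      | zero =>
        rw [Matrix.single_zero]
        exact K.zero_mem
      | add a b ha hb =>
        rw [Matrix.single_add]
        exact K.add_mem ha hb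
      | single g n =>
        refine ⟨hZ _, ?_⟩
        by_cases hxz : x = z
        · subst hxz
          obtain ⟨r, hr⟩ : ∃ r, p = r + 1 := ⟨p - 1, by have := hp.pos; omega⟩
          have e1 : (Matrix.single x x (MonoidAlgebra.single g n : ZG π)) ^ p =
              Matrix.single x x (MonoidAlgebra.single (g ^ p) (n ^ p)) := by
            rw [← MonoidAlgebra.single_pow, hr]
            exact FROB_pow_single x _ r
          rw [e1, hT, hT', FROB_str_single, FROB_str_single, chi_single, chi_single]
          have e2 : g ^ p ∈ cj y ↔ g ∈ cjp p y := Iff.rfl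
          by_cases h2 : g ∈ cjp p y
          · rw [if_pos (e2.2 h2), if_pos h2, smul_eq_mul, smul_eq_mul]
            push_cast
            rw [ZMod.pow_card]
          · rw [if_neg fun h3 => h2 (e2.1 h3), if_neg h2]
        · have e1 : (Matrix.single x z (MonoidAlgebra.single g n : ZG π)) ^ p = 0 := by
            obtain ⟨r, hr⟩ : ∃ r, p = r + 2 := ⟨p - 2, by have := hp.two_le; omega⟩
            rw [hr, pow_add, pow_two, Matrix.single_mul_single_of_ne (h := Ne.symm hxz), mul_zero]
          rw [e1, map_zero, hT', FROB_str_off _ _ _ _ hxz, Int.cast_zero]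
  have h3 := hK.2
  rw [hT, hT'] at h3
  rw [← ZMod.intCast_zmod_eq_zero_iff_dvd, Int.cast_sub, h3, sub_self]

end Pool.Agent.HSP
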