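import Pool.Agent.HSP.DEC
import Pool.Agent.HSP.FROB

/-!
# HSP, module PER: periodicity of the support of the trace of a homotopy idempotent
-/

set_option autoImplicit false

namespace Pool.Agent.HSP

open Matrix Pool.Agent.CPD

/-- The `p`-th power of a class. -/
private def PER_pw {π : Type} [Group π] (p : ℕ) : ConjClasses π → ConjClasses π :=
  Quotient.lift (fun g => ConjClasses.mk (g ^ p)) fun a b (h : IsConj a b) =>
    ConjClasses.mk_eq_mk_iff_isConj.2 (h.pow p)

private lemma PER_pw_mk {π : Type} [Group π] (p : ℕ) (g : π) :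
    PER_pw p (ConjClasses.mk g) = ConjClasses.mk (g ^ p) := rfl

private lemma PER_iter {π : Type} [Group π] (p : ℕ) (g : π) (n : ℕ) :
    (PER_pw p)^[n] (ConjClasses.mk g) = ConjClasses.mk (g ^ (p ^ n)) := by
  induction n with
  | zero => rw [Function.iterate_zero_apply, pow_zero, pow_one]
  | succ n ih => rw [Function.iterate_succ_apply', ih, PER_pw_mk, ← pow_mul, ← pow_succ]

theorem thm_PER : St_PER := by
  classical
  intro π W _ _ _ deg d k hdn hk hdk hid y m hy hm
  set F : ConjClasses π → ℤ := fun C => str (chi (cls C)) deg k with hF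
  set P := supC k with hP
  -- the support is in P
  have hsup : ∀ C, F C ≠ 0 → C ∈ P := by
    intro C
    obtain ⟨g, rfl⟩ := ConjClasses.exists_rep C
    intro hne
    by_contra hnot
    apply hne
    show str (chi (cls (ConjClasses.mk g))) deg k = 0
    rw [str_dec deg k (cls (ConjClasses.mk g))]
    · refine Finset.sum_eq_zero fun C' hC' => ?_
      exfalso
      rw [Finset.mem_filter] at hC'
      obtain ⟨h1, g', hg', rfl⟩ := hC'
      have h2 : ConjClasses.mk g' = ConjClasses.mk g := hg'
      rw [h2] at h1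
      exact hnot h1
    · intro a b hab ha
      exact (ConjClasses.mk_eq_mk_iff_isConj.2 hab.symm).trans ha
  set Bd : ℤ := ∑ C ∈ P, |F C| with hBd
  have hbd : ∀ Q : Finset (ConjClasses π), Q ⊆ P → |∑ C ∈ Q, F C| ≤ Bd := by
    intro Q hQ
    refine (Finset.abs_sum_le_sum_abs _ _).trans ?_
    exact Finset.sum_le_sum_of_subset_of_nonneg hQ fun _ _ _ => abs_nonneg _
  -- a large prime
  obtain ⟨p, hpge, hp⟩ := Nat.exists_infinite_primes (2 * Bd.toNat + m + 3)
  have hp3 : 3 ≤ p := by omega
  have hBp : 2 * Bd < p := by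
    have h1 := Int.self_le_toNat Bd
    have h2 : ((2 * Bd.toNat + m + 3 : ℕ) : ℤ) ≤ (p : ℤ) := by exact_mod_cast hpge
    push_cast at h2
    linarith
  -- the equality
  have hfrob : ∀ C, F C = ∑ C' ∈ P.filter (fun C' => PER_pw p C' = C), F C' := by
    intro C
    obtain ⟨g, rfl⟩ := ConjClasses.exists_rep C
    obtain ⟨r, hr⟩ : ∃ r, p = r + 1 := ⟨p - 1, by omega⟩
    have h1 := thm_FROB π W deg k p g hp hk
    have h2 : str (chi (cj g)) deg (k ^ p) = str (chi (cj g)) deg k := by
      rw [hr]
      exact thm_HSK (ZG π) ℤ W (chi (cj g)) deg d k (thm_TRC π g) hdn hk hdk hid r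
    have h3 : str (chi (cjp p g)) deg k =
        ∑ C' ∈ P.filter (fun C' => PER_pw p C' = ConjClasses.mk g), F C' := by
      rw [str_dec deg k (cjp p g)]
      · refine Finset.sum_congr (Finset.filter_congr fun C' _ => ?_) fun _ _ => rfl
        obtain ⟨g', rfl⟩ := ConjClasses.exists_rep C'
        constructor
        · rintro ⟨a, ha, hag⟩
          rw [← hag, PER_pw_mk]
          exact (ConjClasses.mk_eq_mk_iff_isConj.2 ha).symm
        · intro h
          rw [PER_pw_mk] at h
          exact ⟨g', ConjClasses.mk_eq_mk_iff_isConj.1 h.symm, rfl⟩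
      · intro a b hab ha
        exact IsConj.trans ha (hab.pow p)
    rw [h2, h3, cj_eq] at h1
    have h4 : |F (ConjClasses.mk g)| ≤ Bd := by
      by_cases h5 : F (ConjClasses.mk g) = 0
      · rw [h5, abs_zero]
        exact Finset.sum_nonneg fun _ _ => abs_nonneg _
      · have := hbd {ConjClasses.mk g} (Finset.singleton_subset_iff.2 (hsup _ h5))
        rwa [Finset.sum_singleton] at this
    have h6 := hbd _ (Finset.filter_subset (fun C' => PER_pw p C' = ConjClasses.mk g) P)
    have h7 := Int.eq_zero_of_abs_lt_dvd h1 (by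
      refine lt_of_le_of_lt (abs_sub _ _) ?_
      show |F (ConjClasses.mk g)| + _ < _
      linarith)
    exact sub_eq_zero.1 h7
  -- the support is permuted
  set S : Finset (ConjClasses π) := P.filter (fun C => F C ≠ 0) with hS
  have hmemS : ∀ C, C ∈ S ↔ F C ≠ 0 := by
    intro C
    rw [hS, Finset.mem_filter]
    exact ⟨fun h => h.2, fun h => ⟨hsup C h, h⟩⟩
  have hsub : S ⊆ S.image (PER_pw p) := by
    intro C hC
    rw [hmemS, hfrob C] at hC
    obtain ⟨C', hC', hne⟩ := Finset.exists_ne_zero_of_sum_ne_zero hC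
    rw [Finset.mem_filter] at hC'
    exact Finset.mem_image.2 ⟨C', (hmemS C').2 hne, hC'.2⟩
  have himg : S = S.image (PER_pw p) := Finset.eq_of_subset_of_card_le hsub Finset.card_image_le
  have hmaps : ∀ C ∈ S, PER_pw p C ∈ S := by
    intro C hC
    rw [himg]
    exact Finset.mem_image_of_mem _ hC
  have hinj : Set.InjOn (PER_pw p) (S : Set (ConjClasses π)) := by
    apply Finset.card_image_iff.1
    rw [← himg]
  let f : S → S := fun C => ⟨PER_pw p C.1, hmaps C.1 C.2⟩
  have hf : Function.Injective f := by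
    intro a b hab
    have h1 : PER_pw p a.1 = PER_pw p b.1 := congrArg Subtype.val hab
    exact Subtype.ext (hinj a.2 b.2 h1)
  have hyS : ConjClasses.mk y ∈ S := by
    rw [hmemS]
    rw [cj_eq] at hy
    exact hy
  obtain ⟨N, hN, hper⟩ := Function.mem_periodicPts.1
    (Function.Injective.mem_periodicPts hf ⟨ConjClasses.mk y, hyS⟩)
  have hval : ∀ n : ℕ, (f^[n] ⟨ConjClasses.mk y, hyS⟩).1 = (PER_pw p)^[n] (ConjClasses.mk y) := by
    intro n
    induction n with
    | zero => rfl
    | succ n ih => rw [Function.iterate_succ_apply', Function.iterate_succ_apply', ← ih]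
  have hper2 : ∀ j : ℕ, ConjClasses.mk y = ConjClasses.mk (y ^ (p ^ (N * j))) := by
    intro j
    have h1 := (hper.mul_const j)
    have h2 := congrArg Subtype.val h1.eq
    rw [hval, PER_iter] at h2
    exact h2.symm
  have hcop : Nat.Coprime p m := by
    rw [Nat.Prime.coprime_iff_not_dvd hp]
    intro h
    exact absurd (Nat.le_of_dvd (by omega) h) (by omega)
  have htot : 0 < Nat.totient m := Nat.totient_pos.2 (by omega)
  refine ⟨p ^ (N * Nat.totient m), ?_, ?_, ?_⟩
  · have h1 : p ^ 1 ≤ p ^ (N * Nat.totient m) :=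
      Nat.pow_le_pow_right (by omega) (Nat.mul_pos hN htot)
    rw [pow_one] at h1
    omega
  · have h1 := Nat.ModEq.pow_totient (hcop.pow_left N)
    rw [← pow_mul] at h1
    exact (Nat.modEq_iff_dvd' (Nat.one_le_pow _ _ (by omega))).1 h1.symm
  · exact isConj_iff.1 (ConjClasses.mk_eq_mk_iff_isConj.1 (hper2 _))

end Pool.Agent.HSP
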