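import Pool.Agent.CPD.StA
import Pool.Agent.CPD.Words

/-!
# HSP: Hattori-Stallings traces of homotopy idempotents over integral group rings (helper77, for SPD of helper14)

Finite complexes in matrix form, conventions of `Pool.Agent.CPD.AlgDefs`.
-/

set_option autoImplicit false

namespace Pool.Agent.HSP

open Matrix Pool.Agent.CPD

/-- The sum of the coefficients over the set `S`. -/
noncomputable def chi {π : Type} [Group π] (S : Set π) : ZG π →+ ℤ where
  toFun a := open scoped Classical in a.coeff.sum fun g n => if g ∈ S then n else 0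
  map_zero' := by
    classical
    rw [MonoidAlgebra.coeff_zero, Finsupp.sum_zero_index]
  map_add' a b := by
    classical
    rw [MonoidAlgebra.coeff_add]
    refine Finsupp.sum_add_index' (fun g => ?_) (fun g m n => ?_)
    · exact ite_self 0
    · split_ifs
      · rfl
      · rw [add_zero]

theorem chi_single {π : Type} [Group π] (S : Set π) (g : π) (n : ℤ) [Decidable (g ∈ S)] :
    chi S (MonoidAlgebra.single g n) = if g ∈ S then n else 0 := by
  unfold chi
  rw [AddMonoidHom.coe_mk, ZeroHom.coe_mk, MonoidAlgebra.coeff_single, Finsupp.sum_single_index]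
  · by_cases h : g ∈ S
    · rw [if_pos h, if_pos h]
    · rw [if_neg h, if_neg h]
  · split_ifs <;> rfl

/-- The conjugacy class of `y`. -/
def cj {π : Type} [Group π] (y : π) : Set π := {g | IsConj y g}

/-- The elements whose `p`-th power is conjugate to `y`. -/
def cjp {π : Type} [Group π] (p : ℕ) (y : π) : Set π := {g | IsConj y (g ^ p)}

/-- [TRC] `chi (cj y)` is a trace. -/
def St_TRC : Prop := ∀ (π : Type) [Group π] (y : π) (a b : ZG π),
  chi (cj y) (a * b) = chi (cj y) (b * a)

/-- [FROB] The trace of the `p`-th power. -/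
def St_FROB : Prop := ∀ (π W : Type) [Group π] [Fintype W] [DecidableEq W] (deg : W → ℕ)
  (A : Matrix W W (ZG π)) (p : ℕ) (y : π), p.Prime → Zr deg A →
  (p : ℤ) ∣ str (chi (cj y)) deg (A ^ p) - str (chi (cjp p y)) deg A

/-- [HSK] Powers of a homotopy idempotent have the same traces. -/
def St_HSK : Prop := ∀ (Λ A W : Type) [Ring Λ] [AddCommGroup A] [Fintype W] [DecidableEq W]
  (t : Λ →+ A) (deg : W → ℕ) (d k : Matrix W W Λ), (∀ a b, t (a * b) = t (b * a)) → Dn deg d →
  Zr deg k → d * k = k * d → NullH deg d (k * k - k) →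
  ∀ n : ℕ, str t deg (k ^ (n + 1)) = str t deg k

/-- [PER] Periodicity of the support of the trace. -/
def St_PER : Prop := ∀ (π W : Type) [Group π] [Fintype W] [DecidableEq W] (deg : W → ℕ)
  (d k : Matrix W W (ZG π)), Dn deg d → Zr deg k → d * k = k * d → NullH deg d (k * k - k) →
  ∀ (y : π) (m : ℕ), str (chi (cj y)) deg k ≠ 0 → 1 ≤ m →
    ∃ q : ℕ, 3 ≤ q ∧ m ∣ q - 1 ∧ ∃ t : π, t * y * t⁻¹ = y ^ q

/-- [CON] If the support of the trace is mapped to `1` then the trace of the image is concentrated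
at `1`. -/
def St_CON : Prop := ∀ (π ρ W : Type) [Group π] [Group ρ] [Fintype W] [DecidableEq W]
  (φ : π →* ρ) (deg : W → ℕ) (k : Matrix W W (ZG π)) (k' : Matrix W W (ZG ρ)) (s : ZG π →+ ℤ)
  (t : ZG ρ →+ ℤ), (∀ g n, s (MonoidAlgebra.single g n) = n) → (∀ a, t a = a.coeff 1) →
  (∀ x, k' x x = MonoidAlgebra.mapDomain φ (k x x)) →
  (∀ y : π, str (chi (cj y)) deg k ≠ 0 → φ y = 1) → str t deg k' = str s deg k

/-- [BSQ] In a group with `t x t⁻¹ = x ^ q`, `q ≥ 3`, `q ≡ 1` modulo the order of `x` (if it is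
finite): `x` is in the commutator subgroup of `⟨x, t⟩` only if it is trivial. -/
def St_BSQ : Prop := ∀ (G : Type) [Group G] (x t : G) (q : ℕ), 3 ≤ q →
  t * x * t⁻¹ = x ^ q → (orderOf x ≠ 0 → orderOf x ∣ q - 1) →
  x ∈ ⁅Subgroup.closure ({x, t} : Set G), Subgroup.closure ({x, t} : Set G)⁆ → x = 1

end Pool.Agent.HSP
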