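import Pool.Agent.HSP.St

/-!
# HSP, module TRC: the sum of the coefficients over a conjugacy class is a trace
-/

set_option autoImplicit false

namespace Pool.Agent.HSP

open Matrix Pool.Agent.CPD

theorem thm_TRC : St_TRC := by
  classical
  intro π _ y a b
  induction a using MonoidAlgebra.induction_linear with
  | zero => rw [zero_mul, mul_zero]
  | add a a' ha ha' => rw [add_mul, mul_add, map_add, map_add, ha, ha']
  | single g r =>
    induction b using MonoidAlgebra.induction_linear with
    | zero => rw [zero_mul, mul_zero]
    | add b b' hb hb' => rw [add_mul, mul_add, map_add, map_add, hb, hb']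
    | single h s =>
      rw [MonoidAlgebra.single_mul_single, MonoidAlgebra.single_mul_single, chi_single, chi_single,
        mul_comm r s]
      have h1 : IsConj (g * h) (h * g) := isConj_iff.2 ⟨h, by group⟩
      have h2 : g * h ∈ cj y ↔ h * g ∈ cj y :=
        ⟨fun k => IsConj.trans k h1, fun k => IsConj.trans k h1.symm⟩
      by_cases h3 : g * h ∈ cj y
      · rw [if_pos h3, if_pos (h2.1 h3)]
      · rw [if_neg h3, if_neg fun k => h3 (h2.2 k)]

end Pool.Agent.HSP
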